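import Mathlib

/-!
# Perfect spanning sets in finite abelian groups
-/

set_option autoImplicit false

namespace Pool.Agent.H23.GW

/-- The finite set `A` is a perfect `s`-spanning set of the abelian group `G`: every element of `G`
is the signed sum `∑ c a • a` of exactly one integer vector `c` with `∑ |c a| ≤ s`. -/
def PerfectSpanning {G : Type} [AddCommGroup G] (A : Finset G) (s : ℕ) : Prop :=
  ∀ g : G, ∃! c : A → ℤ, ∑ a, |c a| ≤ (s : ℤ) ∧ ∑ a, c a • (a : G) = g

end Pool.Agent.H23.GW
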