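import Pool.Agent.H23.GW.Targets

/-!
# Perfect 3-spanning sets: assembly
-/

set_option autoImplicit false

open Finset

namespace Pool.Agent.H23.GW

/-- the theorem -/
def Main3 : Prop :=
  (∃ m₀ : ℕ, ∀ (G : Type) [AddCommGroup G] [Finite G] (A : Finset G), m₀ ≤ #A →
    PerfectSpanning A 3 → ¬ 3 ∣ Nat.card G ∧
      (∀ p : ℕ, p.Prime → p ∣ Nat.card G → (11 ≤ p ∨ (p = 7 ∧ 49 ∣ Nat.card G)) →
        2 * (p - 5) * #A < 25 * p ^ (Nat.card G).factorization p) ∧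
      ∃ u p k : ℕ, (u = 1 ∨ u = 3 ∨ u = 5 ∨ u = 7 ∨ u = 21) ∧ p.Prime ∧ 5 ≤ p ∧ p ≤ 29 ∧
        2 * #A + 1 = u * p ^ k) ∧
  (∀ δ : ℝ, 0 < δ → ∃ m₀ : ℕ, ∀ (G : Type) [AddCommGroup G] [Finite G] (A : Finset G),
    m₀ ≤ #A → PerfectSpanning A 3 → (AddMonoid.exponent G : ℝ) < (#A : ℝ) ^ (1 + δ)) ∧
  ∃ m₀ : ℕ, ∀ (G : Type) [AddCommGroup G] [Finite G] [IsAddCyclic G] (A : Finset G),
    m₀ ≤ #A → ¬ PerfectSpanning A 3

theorem assemble (hTI : T_TI) (hNT : T_NT) (hGP : T_GP) (hAR : T_AR) (hEX : T_EX) : Main3 := by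
  classical
  obtain ⟨m₁, h₁⟩ := hGP
  obtain ⟨m₂, h₂⟩ := hAR
  refine ⟨⟨max (max m₁ m₂) 20000, ?_⟩, ?_, ?_⟩
  · intro G _ _ A hm hA
    haveI := Fintype.ofFinite G
    obtain ⟨T, hT⟩ := hTI G A hA
    have e : Nat.card G = Fintype.card G := Nat.card_eq_fintype_card
    have h3 : ¬ 3 ∣ Fintype.card G :=
      hNT G T #A hT (le_trans (le_max_right _ _) hm)
    have hp := h₁ #A (le_trans (le_trans (le_max_left _ _) (le_max_left _ _)) hm) G T hT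
    rw [e]
    exact ⟨h3, hp, h₂ #A (Fintype.card G)
      (le_trans (le_trans (le_max_right _ _) (le_max_left _ _)) hm) hT.cardG h3 hp⟩
  · intro δ hδ
    obtain ⟨m₃, h₃⟩ := hEX δ hδ
    refine ⟨m₃, ?_⟩
    intro G _ _ A hm hA
    haveI := Fintype.ofFinite G
    obtain ⟨T, hT⟩ := hTI G A hA
    exact h₃ #A hm G T hT
  · obtain ⟨m₃, h₃⟩ := hEX 1 one_pos
    refine ⟨max m₃ 1, ?_⟩
    intro G _ _ _ A hm hA
    haveI := Fintype.ofFinite G
    obtain ⟨T, hT⟩ := hTI G A hA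
    have h := h₃ #A (le_trans (le_max_left _ _) hm) G T hT
    have hm1 : 1 ≤ #A := le_trans (le_max_right _ _) hm
    rw [IsAddCyclic.exponent_eq_card, Nat.card_eq_fintype_card] at h
    have hc := hT.cardG
    norm_num at h
    have h' : Fintype.card G < #A ^ 2 := by exact_mod_cast h
    nlinarith [Nat.zero_le (#A ^ 3), Nat.mul_le_mul hm1 hm1]

end Pool.Agent.H23.GW
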