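import Pool.Agent.H69.GB.HYA
import Pool.Agent.H16.GW.Targets

/-!
Row HYW of the board gw, in a form which only needs the quotient of the two sides of the functional
equation.
-/

namespace Pool.Agent.H23.GW

open MeasureTheory Pool.Agent.H34.GM Pool.Agent.H34.GZ Pool.Agent.H34.GU Pool.Agent.H34.GA
open Pool.Agent.H23.GB Pool.Agent.H69.GA Pool.Agent.H16.GW Pool.Agent.H69.GB

/-- one value on the critical line against short sums, sharp at infinity, without weight -/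
def T_HYG : Prop := ∀ m : ℕ, 1 ≤ m → ∀ ε : ℝ, 0 < ε → ∃ (k : ℝ → ℝ) (C : ℝ), Krn k ∧ 0 < C ∧
  ∀ (N : ℕ) [NeZero N] (T : ℕ → Finset (ZM m)) (D : Set (V m)), SysZ m N T D →
  ∀ (F : Mat m → VN m N → ℂ) (lam : ℕ → ℂ) (P : ℝ), CusB m N T F lam →
  nU D F = 1 → Lip D F P → 1 ≤ P → ∀ L G : ℂ → ℂ, IsL m 1 lam L → Gmf N L G →
  ∀ t : ℝ, |t| ≤ P → ∀ X : ℕ, C * ((N : ℝ) * P ^ m) ^ (1 / 2 : ℝ) * (N * P) ^ ε ≤ X →
    ‖L (1 / 2 + t * Complex.I)‖ ≤ C * (N * P) ^ ε *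
      (1 + ∫ τ : ℝ, k τ * ‖SX lam X (1 / 2 + ((t + τ : ℝ) : ℂ) * Complex.I)‖)

theorem pf_HYG (hPRF : T_PRF) (hFR : T_FR1) (hAFW : T_AFW) (hSHF : T_SHF) (hCTN : T_CTN)
    (hNRM : T_NRM) (hLOB : T_LOB)
    (hLMB : Pool.Agent.H23.GB.T_LMB) (hZLS : T_ZLS) (hFEC : T_FEC)
    (hMLZ : T_MLZ) (hENA : T_ENA) (hCFA : T_CFA)
    (hCFB : Pool.Agent.H34.GA.T_CFB) (hSMA : Pool.Agent.H34.GA.T_SMA)
    (hBIA : T_BIA) : T_HYG := by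
  obtain ⟨χ, hχ⟩ := hPRF
  intro m hm ε hε
  have hmR : (1 : ℝ) ≤ m := by exact_mod_cast hm
  obtain ⟨B, hB, hLam⟩ := hLMB m hm
  obtain ⟨r0, hr0, hZ0⟩ := hLOB m χ (m ^ 2) hm hχ le_rfl
  obtain ⟨k, K, CA, hk, hmK, hCA, hA⟩ := hAFW m hm r0 B ε hr0 hB hε
  obtain ⟨CZ, hCZ, hZ⟩ := hLOB m χ K hm hχ hmK
  obtain ⟨cl0, cl, hcl0, hcl, hZL⟩ := hZLS m χ hm hχ
  obtain ⟨CC, hCC, hCt⟩ := hCTN m χ hm hχ
  obtain ⟨cN, hcN, hNr⟩ := hNRM m χ hm hχ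
  have hCZ0 : 0 < CZ := by linarith
  obtain ⟨c, hc, hc2, hcN2, hcl1⟩ : ∃ c : ℝ, 0 < c ∧ c ≤ 1 / 2 ∧ 2 * c ≤ cN ∧
      c * 3 ≤ cl0 := by
    refine ⟨min (1 / 2) (min (cN / 2) (cl0 / 3)), ?_, min_le_left _ _, ?_, ?_⟩
    · exact lt_min (by norm_num) (lt_min (by positivity) (by positivity))
    · have h1 : min (1 / 2) (min (cN / 2) (cl0 / 3)) ≤ cN / 2 :=
        (min_le_right _ _).trans (min_le_left _ _)
      linarith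
    · have h1 : min (1 / 2) (min (cN / 2) (cl0 / 3)) ≤ cl0 / 3 :=
        (min_le_right _ _).trans (min_le_right _ _)
      linarith
  obtain ⟨C1, hC1⟩ : ∃ C1 : ℝ, C1 = CA * ((c⁻¹ ^ m) ^ (1 / 2 : ℝ) * c ^ (-ε)) := ⟨_, rfl⟩
  obtain ⟨C2, hC2⟩ : ∃ C2 : ℝ, C2 = CA * (CZ + CC) * cl⁻¹ * c ^ (-ε) := ⟨_, rfl⟩
  have hC1p : 0 < C1 := by
    rw [hC1]
    positivity
  have hC2p : 0 < C2 := by
    rw [hC2]
    positivity
  refine ⟨k, C1 + C2, hk, by positivity, ?_⟩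
  intro N _ T D hS F lam P hF hn hLip hP1 L G hLL hG t ht X hX
  have hP0 : 0 < P := by linarith
  have hN1 : (1 : ℝ) ≤ N := by
    have := hS.two_le
    exact_mod_cast (by omega : 1 ≤ N)
  have hN0 : (0 : ℝ) < N := by linarith
  obtain ⟨H, xv, hFr⟩ := hFR m N hm hS.two_le
  obtain ⟨δ, hδd⟩ : ∃ δ : ℝ, δ = c / P := ⟨_, rfl⟩
  have hδ0 : 0 < δ := by
    rw [hδd]
    positivity
  have hδP : δ * P = c := by
    rw [hδd]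
    field_simp
  have hδc : δ ≤ c := by
    rw [hδd]
    exact div_le_self hc.le hP1
  have hδ2 : δ ≤ 1 / 2 := hδc.trans hc2
  have hδN : δ * (1 + P) ≤ cN := by
    rw [mul_add, mul_one, hδP]
    linarith
  obtain ⟨F2, hF2, hdc, hNZ, hn2, hnear⟩ := hNr N T D hS F lam hF hn P δ hLip hP0.le hδ0 hδ2 hδN
  have hc1 : Cof m (c1 D F2) 1 := by
    have h1 := hCFA m N T D hS F2 lam hF2.toHecA
    rw [hn2] at h1
    exact h1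
  have hc2' : Cof m (c2 D H xv F2) 1 := by
    have h1 := hCFB m N T D hS H xv hFr F2 lam hF2.toHecA
    rw [hn2] at h1
    exact h1
  have hlam := hLam N T D hS F2 lam hF2.toHecA hNZ
  obtain ⟨Cb, hCb, hbi⟩ := hBIA m χ hm hχ
  have hTg := (hbi δ hδ0 hδ2).1
  have hZ1 := hZ δ hδ0 hδ2 (c1 D F2) hc1
  have hZ2 := hZ δ hδ0 hδ2 (c2 D H xv F2) hc2'
  have hZ3 := (hZ0 δ hδ0 hδ2 (c1 D F2) hc1).2.2.2.2
  have hZK : ∀ K : ℕ, m ^ 2 ≤ K → ∃ C : ℝ, ∀ r : ℝ, 0 < r →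
      ‖uu (Pool.Agent.H34.GA.cf (bi m χ δ)) (c2 D H xv F2) r‖ ≤ C * r ^ K := by
    intro K' hK'
    obtain ⟨CK, hCK, hK⟩ := hLOB m χ K' hm hχ hK'
    refine ⟨CK * δ ^ (m ^ 2) * δ⁻¹ ^ K', fun r hr => ?_⟩
    refine ((hK δ hδ0 hδ2 _ hc2').2.1 r hr).trans (le_of_eq ?_)
    rw [div_eq_mul_inv, mul_pow]
    ring
  have hs : δ * (1 + ‖(1 / 2 + t * Complex.I : ℂ)‖) ≤ cl0 := by
    have h4 : ‖(1 / 2 + t * Complex.I : ℂ)‖ ≤ 1 / 2 + |t| := by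
      refine (norm_add_le _ _).trans (le_of_eq ?_)
      rw [norm_mul, Complex.norm_I, mul_one, Complex.norm_real, Real.norm_eq_abs]
      norm_num
    have h6 : 1 + ‖(1 / 2 + t * Complex.I : ℂ)‖ ≤ 3 * P := by linarith
    calc δ * (1 + ‖(1 / 2 + t * Complex.I : ℂ)‖) ≤ δ * (3 * P) :=
          mul_le_mul_of_nonneg_left h6 hδ0.le
      _ = (δ * P) * 3 := by ring
      _ = c * 3 := by rw [hδP]
      _ ≤ cl0 := hcl1
  have hlow := hZL (c1 D F2) 1 1 hc1 one_pos (1 / 2 + t * Complex.I : ℂ) δ hδ0 hδ2 hs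
    (fun z hz => by rw [Complex.ofReal_one]; exact hnear z hz)
  have hAd : Adm F2 (Pool.Agent.H34.GA.cf (bi m χ δ)) := Or.inl hdc
  have hWc := hSMA m N T D hS F2 lam hF2 hNZ (bi m χ δ) hTg hAd
  obtain ⟨L', hL', hLW'⟩ := hENA m N T D hS F2 lam hF2 hNZ
  have hLe : L = L' := isl_uniq hLL hL'
  rw [← hLe] at hLW'
  have hLW := hLW' _ hWc
  have hFE := hFEC m N T D hS H xv hFr F2 lam hF2 hNZ (bi m χ δ) hTg hAd
  obtain ⟨-, hcψ, hMel⟩ := hMLZ m hm (c1 D F2) 1 hc1 (bi m χ δ) hTg.toTg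
  have hcψ' := hZ2.1
  obtain ⟨M, hMc, hMb⟩ := hCt N T D hS H xv hFr F2 lam hF2 hdc hNZ hn2 L G hLL hLW' hG δ hδ0 hδ2
  have hRep := hSHF m _ M hm hcψ' hZK hMc
  have hδm : 0 < δ ^ (m ^ 2) := by positivity
  have hM1 : ∀ t : ℝ, ‖MelA m (uu (bi m χ δ) (c1 D F2)) (1 / 2 + t * Complex.I)‖ ≤
      (CZ + CC) * δ ^ (m ^ 2) := by
    intro t
    rw [hMel]
    refine (hZ1.2.2.1 t).trans (mul_le_mul_of_nonneg_right ?_ hδm.le)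
    linarith
  have hM2 : ∀ t : ℝ, ‖(fun t : ℝ => M (1 / 2 + t * Complex.I)) t‖ ≤
      (CZ + CC) * δ ^ (m ^ 2) := by
    intro t
    refine (hMb t).trans (mul_le_mul_of_nonneg_right ?_ hδm.le)
    linarith
  have hψb : ∀ r : ℝ, 0 < r → ‖uu (Pool.Agent.H34.GA.cf (bi m χ δ)) (c2 D H xv F2) r‖ ≤
      (CZ + CC) * δ ^ (m ^ 2) * (r / δ) ^ K := by
    intro r hr
    refine (hZ2.2.1 r hr).trans ?_
    refine mul_le_mul_of_nonneg_right (mul_le_mul_of_nonneg_right ?_ hδm.le) (by positivity)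
    linarith
  have hX' : CA * ((N : ℝ) * δ⁻¹ ^ m) ^ (1 / 2 : ℝ) * ((N : ℝ) / δ) ^ ε ≤ X := by
    refine le_trans ?_ hX
    rw [hδd, hya_pow hN0 hP0 hc, hya_pow2 m hN0 hP0 hc]
    have h7 : CA * ((c⁻¹ ^ m) ^ (1 / 2 : ℝ) * ((N : ℝ) * P ^ m) ^ (1 / 2 : ℝ)) *
        (c ^ (-ε) * ((N : ℝ) * P) ^ ε) =
        C1 * ((N : ℝ) * P ^ m) ^ (1 / 2 : ℝ) * ((N : ℝ) * P) ^ ε := by
      rw [hC1]
      ring
    rw [h7]
    refine mul_le_mul_of_nonneg_right (mul_le_mul_of_nonneg_right ?_ ?_) ?_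
    · linarith
    · positivity
    · positivity
  have hfin := hA N δ ((CZ + CC) * δ ^ (m ^ 2)) lam (uu (bi m χ δ) (c1 D F2))
    (uu (Pool.Agent.H34.GA.cf (bi m χ δ)) (c2 D H xv F2)) _ hN1
    hδ0 hδ2 (by positivity) hcψ hcψ' hZ3 hψb hlam hFE hM1 hRep hM2 X hX' t
  obtain ⟨I, hI⟩ : ∃ I : ℝ, I = ∫ τ : ℝ, k τ *
    ‖SX lam X (1 / 2 + ((t + τ : ℝ) : ℂ) * Complex.I)‖ := ⟨_, rfl⟩
  have hI0 : 0 ≤ I := by
    rw [hI]
    exact integral_nonneg fun τ => mul_nonneg (hk.nn τ) (norm_nonneg _)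
  rw [← hI] at hfin ⊢
  have hpo : (N / δ) ^ ε = c ^ (-ε) * ((N : ℝ) * P) ^ ε := by
    rw [hδd, hya_pow hN0 hP0 hc]
  rw [hLW, hMel, norm_mul, hpo] at hfin
  have hmm : δ ^ (m * m) = δ ^ (m ^ 2) := by rw [pow_two]
  rw [hmm, mul_one] at hlow
  have h8 : ‖L (1 / 2 + t * Complex.I)‖ * (cl * δ ^ (m ^ 2)) ≤
      CA * ((CZ + CC) * δ ^ (m ^ 2)) * (c ^ (-ε) * ((N : ℝ) * P) ^ ε) * (1 + I) :=
    (mul_le_mul_of_nonneg_left hlow (norm_nonneg _)).trans hfin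
  have h9 : ‖L (1 / 2 + t * Complex.I)‖ ≤ C2 * ((N : ℝ) * P) ^ ε * (1 + I) := by
    have h10 : CA * ((CZ + CC) * δ ^ (m ^ 2)) * (c ^ (-ε) * ((N : ℝ) * P) ^ ε) * (1 + I) =
        (C2 * ((N : ℝ) * P) ^ ε * (1 + I)) * (cl * δ ^ (m ^ 2)) := by
      rw [hC2]
      field_simp
    rw [h10] at h8
    exact le_of_mul_le_mul_right h8 (by positivity)
  refine h9.trans ?_
  refine mul_le_mul_of_nonneg_right (mul_le_mul_of_nonneg_right ?_ ?_) ?_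
  · linarith
  · positivity
  · linarith

theorem pf_HYW (hGAM : T_GAM) (hHYG : T_HYG) (hENA : T_ENA) : T_HYW := by
  intro m hm ε hε
  obtain ⟨k, C, hk, hC, h⟩ := hHYG m hm ε hε
  refine ⟨k, C, hk, hC, ?_⟩
  intro N _ T D hS F lam mu P hF hmu hn hLip hP1 L hLL t ht X hX
  have hNZ : NZ F := spx_nz hS (by rw [hn]; exact one_ne_zero)
  obtain ⟨L', hL', hLW'⟩ := hENA m N T D hS F lam hF.toCusB hNZ
  have hLe : L = L' := isl_uniq hLL hL'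
  rw [← hLe] at hLW'
  obtain ⟨G, hG⟩ := hGAM m N T D hS F lam mu hF hn hmu L hLL hLW'
  exact h N T D hS F lam P hF.toCusB hn hLip hP1 L G hLL hG t ht X hX

end Pool.Agent.H23.GW
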