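import Pool.Agent.H23.GW.Defs

/-!
# Perfect 3-spanning sets: targets of the modules
-/

set_option autoImplicit false

open Finset
open scoped Classical

namespace Pool.Agent.H23.GW

noncomputable section

/-- integer vectors with `∑ |c i| ≤ n` -/
def ball (ι : Type) [Fintype ι] (n : ℕ) : Finset (ι → ℤ) :=
  (Fintype.piFinset fun _ => Icc (-(n : ℤ)) n).filter fun c => ∑ i, |c i| ≤ (n : ℤ)

variable {G : Type} [AddCommGroup G] [Fintype G]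

/-- number of pairs in `T × T` with sum `d` -/
def r2 (T : Finset G) (d : G) : ℕ := #{q ∈ T ×ˢ T | q.1 + q.2 = d}

/-- character sum over `T` -/
def V (T : Finset G) (χ : AddChar G ℂ) : ℂ := ∑ x ∈ T, χ x

/-- what is used about the set `T = {0} ∪ A ∪ -A` of a perfect 3-spanning set `A` of size `m` -/
structure Tile3 (T : Finset G) (m : ℕ) : Prop where
  zero_mem : (0 : G) ∈ T
  neg_mem : ∀ x ∈ T, -x ∈ T
  card : #T = 2 * m + 1
  cardG : 3 * Fintype.card G = (2 * m + 1) * (2 * m ^ 2 + 2 * m + 3)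
  r_le : ∀ d, d ≠ 0 → r2 T d ≤ 2
  corr : ∀ d, d ≠ 0 → ∑ g, r2 T g * r2 T (g + d) ≤ 24 * m + 6
  char : ∀ χ : AddChar G ℂ, χ ≠ 0 →
    V T χ ^ 3 + 3 * V T χ * V T (2 • χ) + 2 * V T (3 • χ) = 6 * m * V T χ

/-- (GF) recursion for the generating function of the balls, in any commutative ring. -/
def T_GF : Prop :=
  ∀ (ι : Type) [Fintype ι] (R : Type) [CommRing R] (u : ι → Rˣ) (n : ℕ),
    (n : R) * ∑ c ∈ ball ι n, ∏ i, ((u i ^ c i : Rˣ) : R) =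
      ∑ k ∈ Icc 1 n, ((1 + ∑ i, (((u i ^ k : Rˣ) : R) + (((u i)⁻¹ ^ k : Rˣ) : R))) -
        (if Even k then 2 * (Fintype.card ι : R) else 0)) *
          ∑ c ∈ ball ι (n - k), ∏ i, ((u i ^ c i : Rˣ) : R)

/-- (TI) the tile of a perfect 3-spanning set. -/
def T_TI : Prop :=
  ∀ (G : Type) [AddCommGroup G] [Fintype G] (A : Finset G), PerfectSpanning A 3 →
    ∃ T : Finset G, Tile3 T #A

/-- (VZ) vanishing of character sums is stable under Galois conjugation. -/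
def T_VZ : Prop :=
  ∀ (G : Type) [AddCommGroup G] [Fintype G] (T : Finset G) (χ : AddChar G ℂ) (t : ℕ),
    t.Coprime (Fintype.card G) → V T χ = 0 → V T (t • χ) = 0

/-- (PR) the product of the nonzero character sums is an integer. -/
def T_PR : Prop :=
  ∀ (G : Type) [AddCommGroup G] [Fintype G] (T : Finset G),
    1 ≤ ∏ χ ∈ (univ : Finset (AddChar G ℂ)) with V T χ ≠ 0, ‖V T χ‖

/-- (SU) second and fourth moments. -/
def T_SU : Prop :=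
  ∀ (G : Type) [AddCommGroup G] [Fintype G] (T : Finset G), (∀ x ∈ T, -x ∈ T) →
    (∀ χ : AddChar G ℂ, (V T χ).im = 0) ∧
    ∑ χ : AddChar G ℂ, ‖V T χ‖ ^ 2 = (Fintype.card G : ℝ) * #T ∧
    ∀ t : ℕ, ∑ χ : AddChar G ℂ, ‖V T χ‖ ^ 2 * ‖V T (t • χ)‖ ^ 2 =
      (Fintype.card G : ℝ) * ∑ g, (r2 T g : ℝ) * r2 T (t • g)

/-- (NT) three does not divide the order of the group. -/
def T_NT : Prop :=
  ∀ (G : Type) [AddCommGroup G] [Fintype G] (T : Finset G) (m : ℕ), Tile3 T m → 20000 ≤ m →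
    ¬ 3 ∣ Fintype.card G

/-- (DI) the dichotomy for the size of the character sums. -/
def T_DI : Prop :=
  ∀ (G : Type) [AddCommGroup G] [Fintype G] (T : Finset G) (m : ℕ), Tile3 T m → 20000 ≤ m →
    ∀ χ : AddChar G ℂ, χ ≠ 0 → ‖V T χ‖ ≤ 3 * √m ∧ (‖V T χ‖ ≤ √m → ‖V T χ‖ ≤ 3 / 2 / √m) ∧
      (√m < ‖V T χ‖ → |‖V T χ‖ ^ 2 - 6 * m| ≤ 10 * √m)

/-- (SB) the pairs with sum in a subgroup. -/
def T_SB : Prop :=
  ∀ (G : Type) [AddCommGroup G] [Fintype G] (T : Finset G) (m : ℕ), Tile3 T m → 20000 ≤ m →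
    ∀ K : AddSubgroup G, ∑ h with h ∈ K, (r2 T h : ℝ) ≤
      (2 * m + 1) ^ 2 * Nat.card K / Fintype.card G + 9 * m

/-- (MA) the main inequality. -/
def T_MA : Prop :=
  ∀ ε : ℝ, 0 < ε → ∃ m₀ : ℕ, ∀ m : ℕ, m₀ ≤ m → ∀ (G : Type) [AddCommGroup G] [Fintype G]
    (T : Finset G), Tile3 T m → ∀ Γ : Subgroup (ZMod (Fintype.card G))ˣ,
      (6 - ε) * m ^ 2 * Nat.card Γ ≤
        ∑ t with t ∈ Γ, ∑ g, (r2 T g : ℝ) * r2 T ((t : ZMod (Fintype.card G)).val • g)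

/-- (GP) the primary components of the group. -/
def T_GP : Prop :=
  ∃ m₀ : ℕ, ∀ m : ℕ, m₀ ≤ m → ∀ (G : Type) [AddCommGroup G] [Fintype G]
    (T : Finset G), Tile3 T m → ∀ p : ℕ, p.Prime → p ∣ Fintype.card G →
      (11 ≤ p ∨ (p = 7 ∧ 49 ∣ Fintype.card G)) →
      2 * (p - 5) * m < 25 * p ^ (Fintype.card G).factorization p

/-- (AR) arithmetic of `2 m + 1`. -/
def T_AR : Prop :=
  ∃ m₀ : ℕ, ∀ m N : ℕ, m₀ ≤ m → 3 * N = (2 * m + 1) * (2 * m ^ 2 + 2 * m + 3) → ¬ 3 ∣ N →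
    (∀ p : ℕ, p.Prime → p ∣ N → (11 ≤ p ∨ (p = 7 ∧ 49 ∣ N)) →
      2 * (p - 5) * m < 25 * p ^ N.factorization p) →
    ∃ u p k : ℕ, (u = 1 ∨ u = 3 ∨ u = 5 ∨ u = 7 ∨ u = 21) ∧ p.Prime ∧ 5 ≤ p ∧ p ≤ 29 ∧
      2 * m + 1 = u * p ^ k

/-- (EX) the exponent of the group. -/
def T_EX : Prop :=
  ∀ δ : ℝ, 0 < δ → ∃ m₀ : ℕ, ∀ m : ℕ, m₀ ≤ m → ∀ (G : Type) [AddCommGroup G] [Fintype G]
    (T : Finset G), Tile3 T m → (AddMonoid.exponent G : ℝ) < (m : ℝ) ^ (1 + δ)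

end

end Pool.Agent.H23.GW
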